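import Pool.Agent.Helper78.JT.Goals3
import Pool.Agent.Helper78.DT.Av

/-!
Packet JT-CKE: the circuit and its approximation.
-/

set_option autoImplicit false

namespace Pool.Agent.Helper83.JT

open Pool.Agent.Helper78.JT Pool.Agent.Helper78.DT
open scoped Classical

theorem pr_list_le {Ω ι : Type*} [Fintype Ω] (l : List ι) (E : ι → Ω → Prop) (B : ℝ)
    (h : ∀ i ∈ l, pr (E i) ≤ B) : pr (fun w => ∃ i ∈ l, E i w) ≤ l.length * B := by
  induction l with
  | nil =>
    have h0 : pr (fun w : Ω => ∃ i ∈ ([] : List ι), E i w) ≤ 0 := by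
      refine av_le_of_le le_rfl fun w => ?_
      rw [if_neg (by simp)]
    simpa using h0
  | cons a l ih =>
    have h1 : pr (fun w => ∃ i ∈ a :: l, E i w) ≤ pr (E a) + pr (fun w => ∃ i ∈ l, E i w) := by
      refine pr_le_add_of_imp fun w hw => ?_
      obtain ⟨i, hi, hE⟩ := hw
      rcases List.mem_cons.mp hi with rfl | hi
      · exact Or.inl hE
      · exact Or.inr ⟨i, hi, hE⟩
    have h2 := h a (List.mem_cons_self)
    have h3 := ih fun i hi => h i (List.mem_cons_of_mem a hi)
    rw [List.length_cons, Nat.cast_add, Nat.cast_one, add_mul, one_mul]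
    linarith

theorem abs_pr_sub {Ω : Type*} [Fintype Ω] (E E' B : Ω → Prop)
    (h : ∀ w, ¬ B w → (E w ↔ E' w)) : |pr E - pr E'| ≤ pr B := by
  have h1 : pr E ≤ pr E' + pr B := pr_le_add_of_imp fun w hw => by
    by_cases hB : B w
    · exact Or.inr hB
    · exact Or.inl ((h w hB).mp hw)
  have h2 : pr E' ≤ pr E + pr B := pr_le_add_of_imp fun w hw => by
    by_cases hB : B w
    · exact Or.inr hB
    · exact Or.inl ((h w hB).mpr hw)
  rw [abs_le]
  constructor <;> linarith

theorem length_le_lsize (f : CList) : f.length ≤ lsize f := by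
  unfold lsize
  induction f with
  | nil => simp
  | cons e f ih =>
    rw [List.length_cons, List.map_cons, List.sum_cons]
    omega

theorem flatten_le (l : List CList) :
    l.flatten.length ≤ (l.map fun f => 1 + lsize f).sum := by
  induction l with
  | nil => simp
  | cons f l ih =>
    rw [List.flatten_cons, List.length_append, List.map_cons, List.sum_cons]
    have := length_le_lsize f
    omega

theorem okq_zero (n t : ℕ) (h : ℕ → ℕ) (Q : List ℕ) : okq n 0 t h Q = true := by
  simp [okq]

theorem val_eq (cks : CksStmt) {n : ℕ} (k s s' : ℕ) (h : ℕ → ℕ) (r : Fin n → Bool) (f : CList)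
    (hf : ∀ e ∈ f, ¬ (Holds r e.1 ∧ scan n k (cf r) e.1 s s' [] = none)) :
    vlK n k s s' 0 0 h (cf r) f = val r f := by
  induction f with
  | nil => rfl
  | cons e f ih =>
    have ih' := ih fun e' he' => hf e' (List.mem_cons_of_mem e he')
    have he := hf e List.mem_cons_self
    unfold vlK val
    cases hs : scan n k (cf r) e.1 s s' [] with
    | some Q =>
      have h1 : Holds r e.1 := (cks n k e.1 s s' [] Q r r).1 hs
      simp only [okq_zero, if_true, if_pos h1]
    | none =>
      have h1 : ¬ Holds r e.1 := fun h => he ⟨h, hs⟩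
      simp only [if_neg h1, ih']

theorem idx_eq (cks : CksStmt) {n : ℕ} (k s s' : ℕ) (h : ℕ → ℕ) (r : Fin n → Bool)
    (l : List CList)
    (hl : ∀ f ∈ l, ∀ e ∈ f, ¬ (Holds r e.1 ∧ scan n k (cf r) e.1 s s' [] = none)) :
    ixK n k s s' 0 0 h (cf r) l = idx r l := by
  induction l with
  | nil => rfl
  | cons f l ih =>
    have ih' := ih fun f' hf' => hl f' (List.mem_cons_of_mem f hf')
    have hf := val_eq cks k s s' h r f (hl f List.mem_cons_self)
    unfold ixK idx
    rw [ih', hf]

theorem cke (cks : CksStmt) (ckt : CktStmt) : CkeStmt := by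
  intro z k s s' hN
  set B : ℝ := (1 - 1 / 2 ^ k) ^ s +
      3 ^ (k * (Nat.log 2 (size z) + 1)) * (2 / 3 : ℝ) ^ s' with hB
  have hk : (1 : ℝ) / 2 ^ k ≤ 1 := by
    rw [div_le_one (by positivity)]
    exact one_le_pow₀ (by norm_num)
  have hB0 : 0 ≤ B := by
    have : (0 : ℝ) ≤ 1 - 1 / 2 ^ k := by linarith
    positivity
  have hc : (cnt z : ℝ) / 2 ^ z.1 = pr (fun r : Fin z.1 → Bool => out z r = true) := by
    rw [pr_eq_card]
    unfold cnt
    simp
  rw [hc]
  have h1 := abs_pr_sub
    (fun r : Fin z.1 → Bool => outK z k s s' 0 0 (fun _ => 0) (cf r) = true)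
    (fun r : Fin z.1 → Bool => out z r = true)
    (fun r => ∃ e ∈ z.2.1.flatten, Holds r e.1 ∧ scan z.1 k (cf r) e.1 s s' [] = none) (by
      intro r hr
      have hi : ixK z.1 k s s' 0 0 (fun _ => 0) (cf r) z.2.1 = idx r z.2.1 := by
        refine idx_eq cks k s s' _ r z.2.1 fun f hf e he hh => hr ⟨e, ?_, hh⟩
        exact List.mem_flatten.mpr ⟨f, hf, he⟩
      unfold outK Pool.Agent.Helper78.JT.out
      rw [hi])
  have h2 := pr_list_le z.2.1.flatten
    (fun e (r : Fin z.1 → Bool) => Holds r e.1 ∧ scan z.1 k (cf r) e.1 s s' [] = none) B (by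
      intro e he
      obtain ⟨f, hf, hef⟩ := List.mem_flatten.mp he
      refine (ckt z.1 k s s' e.1).trans ?_
      have h3 : (3 : ℝ) ^ (e.1.filter fun C => decide (k < C.length)).length ≤
          3 ^ (k * (Nat.log 2 (size z) + 1)) :=
        pow_le_pow_right₀ (by norm_num) (hN f hf e hef)
      have h4 : (0 : ℝ) ≤ (2 / 3 : ℝ) ^ s' := by positivity
      rw [hB]
      have := mul_le_mul_of_nonneg_right h3 h4
      linarith)
  have h5 : (z.2.1.flatten.length : ℝ) ≤ size z := by
    have h6 := flatten_le z.2.1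
    have h7 : z.2.1.flatten.length ≤ size z := by
      unfold size
      omega
    exact_mod_cast h7
  calc _ ≤ _ := h1
    _ ≤ _ := h2
    _ ≤ _ := mul_le_mul_of_nonneg_right h5 hB0

end Pool.Agent.Helper83.JT
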